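import Pool.Agent.V11121.Rat.Num

/-! A Karamata-type comparison and the binomial inequality. -/

namespace V11121.Rat

open Finset

/-- `∑_{k<x} (l - α(k+1))` with truncated subtraction. -/
def W (α x l : ℕ) : ℕ := ∑ k ∈ range x, (l - α * (k + 1))

theorem W_full (α x l : ℕ) (h : α * x ≤ l) :
    (2 : ℤ) * (W α x l : ℤ) = 2 * x * l - α * (x * (x + 1)) := by
  induction x with
  | zero => simp [W]
  | succ x ih =>
    have h1 : α * x ≤ l := le_trans (Nat.mul_le_mul_left _ (Nat.le_succ x)) h
    have h2 : W α (x + 1) l = W α x l + (l - α * (x + 1)) := by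
      unfold W
      rw [sum_range_succ]
    have h3 := ih h1
    rw [h2]
    push_cast [Nat.cast_sub h]
    push_cast at h3
    linarith

theorem W_eq (α x l : ℕ) :
    ∃ a ≤ x, (2 : ℤ) * (W α x l : ℤ) = 2 * a * l - α * (a * (a + 1)) := by
  induction x with
  | zero => exact ⟨0, le_rfl, by simp [W]⟩
  | succ x ih =>
    by_cases h : α * (x + 1) ≤ l
    · exact ⟨x + 1, le_rfl, W_full α (x + 1) l h⟩
    · obtain ⟨a, ha, h1⟩ := ih
      refine ⟨a, by omega, ?_⟩
      have h2 : W α (x + 1) l = W α x l + (l - α * (x + 1)) := by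
        unfold W
        rw [sum_range_succ]
      have h3 : l - α * (x + 1) = 0 := by omega
      rw [h2, h3, add_zero]
      exact h1

theorem W_ge (α x l m : ℕ) (hm : m ≤ x) :
    (2 : ℤ) * m * l - α * (m * (m + 1)) ≤ 2 * (W α x l : ℤ) := by
  have h1 : W α m l ≤ W α x l := by
    unfold W
    exact sum_le_sum_of_subset (range_subset_range.2 hm)
  have h2 : ∀ m : ℕ, (2 : ℤ) * m * l - α * (m * (m + 1)) ≤ 2 * (W α m l : ℤ) := by
    intro m
    induction m with
    | zero => simp [W]
    | succ x ih =>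
      have h2 : W α (x + 1) l = W α x l + (l - α * (x + 1)) := by
        unfold W
        rw [sum_range_succ]
      have h3 : (l : ℤ) - ((α * (x + 1) : ℕ) : ℤ) ≤ ((l - α * (x + 1) : ℕ) : ℤ) := by
        omega
      rw [h2]
      push_cast
      push_cast at h3
      linarith
  have h3 : (W α m l : ℤ) ≤ W α x l := by exact_mod_cast h1
  linarith [h2 m]

theorem W_compare (i j x y l : ℕ) (hi : 1 ≤ i) (hj : 1 ≤ j) :
    W (j * (i + j - 1)) x l + W (i * (i + j - 1)) y l ≤
      W (i * j * (i + j - 1)) ((x + y) / (i + j)) l +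
        W (i * j) (x + y - (x + y) / (i + j)) l := by
  obtain ⟨a, ha, h1⟩ := W_eq (j * (i + j - 1)) x l
  obtain ⟨b, hb, h2⟩ := W_eq (i * (i + j - 1)) y l
  have h3 := partial_ineq i j a b hi hj
  set m := (a + b) / (i + j) with hm
  have hmw : m ≤ (x + y) / (i + j) := Nat.div_le_div_right (by omega)
  have hmab : m ≤ a + b := Nat.div_le_self _ _
  have hm' : a + b - m ≤ x + y - (x + y) / (i + j) := by
    -- s ↦ s - s/r is monotone
    have hmono : ∀ s t : ℕ, s ≤ t → s - s / (i + j) ≤ t - t / (i + j) := by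
      intro s t hst
      have e1 := Nat.div_add_mod s (i + j)
      have e2 := Nat.div_add_mod t (i + j)
      have e3 := Nat.mod_lt s (show 0 < i + j by omega)
      have e4 := Nat.mod_lt t (show 0 < i + j by omega)
      have e5 : s / (i + j) ≤ t / (i + j) := Nat.div_le_div_right hst
      rcases eq_or_lt_of_le e5 with h | h
      · rw [h]; omega
      · have e6 : (i + j) * (s / (i + j) + 1) ≤ (i + j) * (t / (i + j)) :=
          Nat.mul_le_mul_left _ h
        obtain ⟨c, hc⟩ : ∃ c, t / (i + j) = s / (i + j) + c := ⟨t / (i + j) - s / (i + j), by omega⟩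
        rw [hc] at e2 ⊢
        have hc1 : 1 ≤ c := by omega
        have e7 : (i + j) * (s / (i + j) + c) = (i + j) * (s / (i + j)) + (i + j) * c := by ring
        rw [e7] at e2
        have e8 : c + (i + j) ≤ (i + j) * c + 1 := by nlinarith
        omega
    exact hmono _ _ (by omega)
  have h4 := W_ge (i * j * (i + j - 1)) ((x + y) / (i + j)) l m hmw
  have h5 := W_ge (i * j) (x + y - (x + y) / (i + j)) l (a + b - m) hm'
  have c1 : ((i + j - 1 : ℕ) : ℤ) = (i : ℤ) + j - 1 := by
    rw [Nat.cast_sub (by omega)]; push_cast; ring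
  push_cast [Nat.cast_sub hmab] at h1 h2 h3 h4 h5
  rw [c1] at h1 h2 h4
  zify
  have e : ((a : ℤ) + b - m) * (a + b - m + 1) = (a + b - m) * (a + b - m + 1) := rfl
  nlinarith [h1, h2, h3, h4, h5]

/-- A convex decreasing sequence is a nonnegative combination of hockey sticks. -/
theorem hockey (φ : ℕ → ℝ) (L : ℕ) (hL : 2 ≤ L) :
    ∀ n, ∀ t, 1 ≤ t → t + n = L → φ t = φ L + ((L - t : ℕ) : ℝ) * (φ (L - 1) - φ L) +
      ∑ l ∈ Ico 2 L, ((l - t : ℕ) : ℝ) * (φ (l - 1) - 2 * φ l + φ (l + 1)) := by
  intro n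
  induction n with
  | zero =>
    intro t ht htL
    have : t = L := by omega
    subst this
    rw [Nat.sub_self, sum_eq_zero]
    · simp
    · intro l hl
      rw [mem_Ico] at hl
      have : l - t = 0 := by omega
      rw [this]; simp
  | succ n ih =>
    intro t ht htL
    have h1 := ih (t + 1) (by omega) (by omega)
    -- compare the two sums
    have h2 : ∑ l ∈ Ico 2 L, ((l - t : ℕ) : ℝ) * (φ (l - 1) - 2 * φ l + φ (l + 1)) =
        ∑ l ∈ Ico 2 L, ((l - (t + 1) : ℕ) : ℝ) * (φ (l - 1) - 2 * φ l + φ (l + 1)) +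
        ∑ l ∈ Ico (t + 1) L, (φ (l - 1) - 2 * φ l + φ (l + 1)) := by
      have h3 : ∑ l ∈ Ico (t + 1) L, (φ (l - 1) - 2 * φ l + φ (l + 1)) =
          ∑ l ∈ Ico 2 L, if t + 1 ≤ l then (φ (l - 1) - 2 * φ l + φ (l + 1)) else 0 := by
        rw [← sum_filter]
        refine sum_congr ?_ fun _ _ => rfl
        ext l
        simp only [mem_Ico, mem_filter]
        omega
      rw [h3, ← sum_add_distrib]
      refine sum_congr rfl fun l hl => ?_
      by_cases h : t + 1 ≤ l
      · rw [if_pos h]
        have : l - t = (l - (t + 1)) + 1 := by omega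
        rw [this]
        push_cast
        ring
      · rw [if_neg h]
        have e1 : l - t = 0 := by omega
        have e2 : l - (t + 1) = 0 := by omega
        rw [e1, e2]
        simp
    have h4 : ∀ M, t + 1 ≤ M → ∑ l ∈ Ico (t + 1) M, (φ (l - 1) - 2 * φ l + φ (l + 1)) =
        (φ t - φ (t + 1)) - (φ (M - 1) - φ M) := by
      intro M hM
      induction M, hM using Nat.le_induction with
      | base => simp
      | succ M hM ihM =>
        rw [sum_Ico_succ_top hM, ihM]
        have : M + 1 - 1 = M := rfl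
        rw [this]
        ring
    rw [h2, h4 L (by omega)]
    have h5 : ((L - t : ℕ) : ℝ) = ((L - (t + 1) : ℕ) : ℝ) + 1 := by
      have : L - t = (L - (t + 1)) + 1 := by omega
      rw [this]; push_cast; ring
    rw [h5]
    linarith [h1]

/-- Karamata for four arithmetic progressions. -/
theorem kara (φ : ℕ → ℝ) (hφ : ∀ l, 2 ≤ l → 0 ≤ φ (l - 1) - 2 * φ l + φ (l + 1))
    (hd : ∀ l, 2 ≤ l → φ l ≤ φ (l - 1)) (α β γ δ x y x' y' : ℕ)
    (hα : 1 ≤ α) (hβ : 1 ≤ β) (hγ : 1 ≤ γ) (hδ : 1 ≤ δ) (hxy : x + y = x' + y')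
    (hW : ∀ l, W α x l + W β y l ≤ W γ x' l + W δ y' l) :
    ∑ k ∈ range x, φ (α * (k + 1)) + ∑ k ∈ range y, φ (β * (k + 1)) ≤
      ∑ k ∈ range x', φ (γ * (k + 1)) + ∑ k ∈ range y', φ (δ * (k + 1)) := by
  -- a common upper bound
  let L := 2 + α * x + β * y + γ * x' + δ * y'
  have hrep : ∀ (α x : ℕ), 1 ≤ α → α * x ≤ L → ∑ k ∈ range x, φ (α * (k + 1)) =
      x * φ L + (W α x L : ℝ) * (φ (L - 1) - φ L) +
      ∑ l ∈ Ico 2 L, (W α x l : ℝ) * (φ (l - 1) - 2 * φ l + φ (l + 1)) := by
    intro α x hα hx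
    have : ∀ k ∈ range x, φ (α * (k + 1)) = φ L +
        ((L - α * (k + 1) : ℕ) : ℝ) * (φ (L - 1) - φ L) +
        ∑ l ∈ Ico 2 L, ((l - α * (k + 1) : ℕ) : ℝ) * (φ (l - 1) - 2 * φ l + φ (l + 1)) := by
      intro k hk
      rw [mem_range] at hk
      have h1 : α * (k + 1) ≤ L := le_trans (Nat.mul_le_mul_left _ (by omega)) hx
      exact hockey φ L (by simp only [L]; omega) (L - α * (k + 1)) (α * (k + 1))
        (Nat.mul_pos hα (Nat.succ_pos k)) (by omega)
    rw [sum_congr rfl this, sum_add_distrib, sum_add_distrib, sum_const, card_range, nsmul_eq_mul,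
      ← sum_mul, sum_comm]
    congr 1
    · congr 1
      unfold W
      push_cast
      rfl
    · refine sum_congr rfl fun l _ => ?_
      rw [← sum_mul]
      unfold W
      push_cast
      rfl
  rw [hrep α x hα (by simp only [L]; omega), hrep β y hβ (by simp only [L]; omega),
    hrep γ x' hγ (by simp only [L]; omega), hrep δ y' hδ (by simp only [L]; omega)]
  have h1 : ((W α x L : ℝ) + W β y L) * (φ (L - 1) - φ L) ≤
      ((W γ x' L : ℝ) + W δ y' L) * (φ (L - 1) - φ L) := by
    refine mul_le_mul_of_nonneg_right ?_ ?_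
    · exact_mod_cast hW L
    · have := hd L (by simp only [L]; omega)
      linarith
  have h2 : ∑ l ∈ Ico 2 L, ((W α x l : ℝ) + W β y l) * (φ (l - 1) - 2 * φ l + φ (l + 1)) ≤
      ∑ l ∈ Ico 2 L, ((W γ x' l : ℝ) + W δ y' l) * (φ (l - 1) - 2 * φ l + φ (l + 1)) := by
    refine sum_le_sum fun l hl => ?_
    rw [mem_Ico] at hl
    refine mul_le_mul_of_nonneg_right ?_ (hφ l hl.1)
    exact_mod_cast hW l
  simp only [add_mul, sum_add_distrib] at h1 h2
  have h3 : ((x : ℝ) + y) * φ L = ((x' : ℝ) + y') * φ L := by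
    have : ((x + y : ℕ) : ℝ) = ((x' + y' : ℕ) : ℝ) := by rw [hxy]
    push_cast at this
    rw [this]
  linarith

/-- `log C(x+i,i) = ∑_{k=1}^{x} log (1 + i/k)`. -/
theorem log_choose (i x : ℕ) :
    ∑ k ∈ range x, Real.log (1 + (i : ℝ) / ((k : ℝ) + 1)) =
      Real.log ((x + i).choose i : ℝ) := by
  induction x with
  | zero => simp
  | succ x ih =>
    rw [sum_range_succ, ih, ← Real.log_mul]
    · congr 1
      have h1 : (x + 1 + i).choose i * (x + 1) = (x + i).choose i * (x + 1 + i) := by
        have h2 := Nat.add_one_mul_choose_eq (x + i) x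
        have e1 : (x + i).choose x = (x + i).choose i := by
          rw [← Nat.choose_symm (show x ≤ x + i by omega)]
          congr 1
          omega
        have e2 : (x + i + 1).choose (x + 1) = (x + 1 + i).choose i := by
          have : x + i + 1 = x + 1 + i := by omega
          rw [this, ← Nat.choose_symm (show x + 1 ≤ x + 1 + i by omega)]
          congr 1
          omega
        rw [e1, e2] at h2
        have : x + i + 1 = x + 1 + i := by omega
        rw [this] at h2
        linarith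
      have h3 : ((x + 1 + i).choose i : ℝ) * ((x : ℝ) + 1) =
          ((x + i).choose i : ℝ) * ((x : ℝ) + 1 + i) := by exact_mod_cast h1
      have h4 : (0 : ℝ) < (x : ℝ) + 1 := by positivity
      field_simp
      linarith
    · have := Nat.choose_pos (show i ≤ x + i by omega)
      positivity
    · positivity

theorem binom_ineq (i j x y : ℕ) (hi : 1 ≤ i) (hj : 1 ≤ j) :
    (x + i).choose i * (y + j).choose j ≤
      ((x + y) / (i + j) + 1) *
        ((x + y - (x + y) / (i + j)) + (i + j - 1)).choose (i + j - 1) := by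
  set x' := (x + y) / (i + j) with hx'
  set y' := x + y - x' with hy'
  have hx'le : x' ≤ x + y := Nat.div_le_self _ _
  set D : ℕ := i * j * (i + j - 1) with hD
  have hr1 : 1 ≤ i + j - 1 := by omega
  have hDpos : 1 ≤ D := Nat.mul_pos (Nat.mul_pos hi hj) hr1
  let φ : ℕ → ℝ := fun t => Real.log (1 + (D : ℝ) / (t : ℝ))
  have hD' : (0 : ℝ) < D := by exact_mod_cast hDpos
  have hφ : ∀ l, 2 ≤ l → 0 ≤ φ (l - 1) - 2 * φ l + φ (l + 1) := by
    intro l hl
    simp only [φ]
    have hl' : (2 : ℝ) ≤ l := by exact_mod_cast hl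
    have c1 : ((l - 1 : ℕ) : ℝ) = (l : ℝ) - 1 := by rw [Nat.cast_sub (by omega)]; simp
    have c2 : ((l + 1 : ℕ) : ℝ) = (l : ℝ) + 1 := by push_cast; ring
    rw [c1, c2]
    have p0 : (0 : ℝ) < l := by linarith
    have p1 : (0 : ℝ) < (l : ℝ) - 1 := by linarith
    have p2 : (0 : ℝ) < (l : ℝ) + 1 := by linarith
    have q0 : (0 : ℝ) < 1 + D / l := by positivity
    have q1 : (0 : ℝ) < 1 + D / ((l : ℝ) - 1) := by positivity
    have q2 : (0 : ℝ) < 1 + D / ((l : ℝ) + 1) := by positivity
    have : 2 * Real.log (1 + D / l) ≤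
        Real.log (1 + D / ((l : ℝ) - 1)) + Real.log (1 + D / ((l : ℝ) + 1)) := by
      rw [← Real.log_mul q1.ne' q2.ne', two_mul, ← Real.log_mul q0.ne' q0.ne']
      refine Real.log_le_log (by positivity) ?_
      rw [← sub_nonneg]
      have e : (1 + D / ((l : ℝ) - 1)) * (1 + D / ((l : ℝ) + 1)) - (1 + D / (l : ℝ)) * (1 + D / l) =
          (D * (D + 2 * l)) / (((l : ℝ) - 1) * (l + 1) * l ^ 2) := by
        field_simp
        ring
      rw [e]
      positivity
    linarith
  have hd : ∀ l, 2 ≤ l → φ l ≤ φ (l - 1) := by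
    intro l hl
    simp only [φ]
    have hl' : (2 : ℝ) ≤ l := by exact_mod_cast hl
    have c1 : ((l - 1 : ℕ) : ℝ) = (l : ℝ) - 1 := by rw [Nat.cast_sub (by omega)]; simp
    rw [c1]
    have p0 : (0 : ℝ) < l := by linarith
    have p1 : (0 : ℝ) < (l : ℝ) - 1 := by linarith
    refine Real.log_le_log (by positivity) ?_
    have : (D : ℝ) / l ≤ D / ((l : ℝ) - 1) := div_le_div_of_nonneg_left hD'.le p1 (by linarith)
    linarith
  have hK := kara φ hφ hd (j * (i + j - 1)) (i * (i + j - 1)) D (i * j) x y x' y'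
    (Nat.mul_pos hj hr1) (Nat.mul_pos hi hr1) hDpos (Nat.mul_pos hi hj)
    (Nat.add_sub_cancel' hx'le).symm (fun l => W_compare i j x y l hi hj)
  -- rewrite the four sums
  have hsum : ∀ (α u x : ℕ), 1 ≤ α → α * u = D →
      ∑ k ∈ range x, φ (α * (k + 1)) = Real.log ((x + u).choose u : ℝ) := by
    intro α u x hα hu
    rw [← log_choose]
    refine sum_congr rfl fun k _ => ?_
    simp only [φ]
    congr 2
    have hα' : (0 : ℝ) < α := by exact_mod_cast hα
    have : (D : ℝ) = α * u := by exact_mod_cast hu.symm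
    rw [this]
    push_cast
    field_simp
  rw [hsum (j * (i + j - 1)) i x (Nat.mul_pos hj hr1) (by rw [hD]; ring),
    hsum (i * (i + j - 1)) j y (Nat.mul_pos hi hr1) (by rw [hD]; ring),
    hsum D 1 x' hDpos (by ring),
    hsum (i * j) (i + j - 1) y' (Nat.mul_pos hi hj) (by rw [hD])] at hK
  have p1 : (0 : ℝ) < ((x + i).choose i : ℝ) := by
    exact_mod_cast Nat.choose_pos (by omega)
  have p2 : (0 : ℝ) < ((y + j).choose j : ℝ) := by
    exact_mod_cast Nat.choose_pos (by omega)
  have p3 : (0 : ℝ) < ((x' + 1).choose 1 : ℝ) := by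
    rw [Nat.choose_one_right]
    positivity
  have p4 : (0 : ℝ) < ((y' + (i + j - 1)).choose (i + j - 1) : ℝ) := by
    exact_mod_cast Nat.choose_pos (by omega)
  rw [← Real.log_mul p1.ne' p2.ne', ← Real.log_mul p3.ne' p4.ne'] at hK
  have h1 := (Real.log_le_log_iff (mul_pos p1 p2) (mul_pos p3 p4)).1 hK
  rw [Nat.choose_one_right] at h1
  exact_mod_cast h1

/-- The bound for all levels. -/
theorem level_bound (n r i q : ℕ) (hi : 1 ≤ i) (hir : i < r) (hq : q ≤ n) :
    q.choose i * (n - q).choose (r - i) ≤ (n - n / r).choose (r - 1) * (n / r) := by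
  by_cases h1 : q < i
  · rw [Nat.choose_eq_zero_of_lt h1, zero_mul]; exact Nat.zero_le _
  · by_cases h2 : n - q < r - i
    · rw [Nat.choose_eq_zero_of_lt h2, mul_zero]; exact Nat.zero_le _
    · push Not at h1 h2
      have key := binom_ineq i (r - i) (q - i) (n - q - (r - i)) hi (by omega)
      have e1 : q - i + i = q := by omega
      have e2 : n - q - (r - i) + (r - i) = n - q := by omega
      have e3 : i + (r - i) = r := by omega
      have e4 : q - i + (n - q - (r - i)) = n - r := by omega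
      rw [e1, e2, e3, e4] at key
      have e5 : (n - r) / r + 1 = n / r := by
        have hrn : r ≤ n := by omega
        have hr0 : 0 < r := by omega
        rw [← Nat.add_div_right _ hr0]
        congr 1
        omega
      have e6 : n - r - (n - r) / r + (r - 1) = n - n / r := by
        have : (n - r) / r ≤ n - r := Nat.div_le_self _ _
        omega
      rw [e5, e6] at key
      refine key.trans (le_of_eq ?_)
      ring

end V11121.Rat
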