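import Mathlib

/-! A LYM-type inequality for zero-sum subsets of a set of nonzero numbers. -/

namespace V11121.Rat

open Finset

variable {α : Type} [DecidableEq α]

/-- Pairs: `i` negative and `r - i` positive elements. -/
def Lev (N P : Finset α) (r i : ℕ) : Finset (Finset α × Finset α) :=
  (N.powersetCard i) ×ˢ (P.powersetCard (r - i))

/-- The sum. -/
def val (v : α → ℚ) (x : Finset α × Finset α) : ℚ := ∑ a ∈ x.1, v a + ∑ a ∈ x.2, v a

theorem lev_card (N P : Finset α) (r i : ℕ) :
    (Lev N P r i).card = N.card.choose i * P.card.choose (r - i) := by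
  unfold Lev
  rw [card_product, card_powersetCard, card_powersetCard]

theorem mem_lev {N P : Finset α} {r i : ℕ} {x : Finset α × Finset α} :
    x ∈ Lev N P r i ↔ (x.1 ⊆ N ∧ x.1.card = i) ∧ (x.2 ⊆ P ∧ x.2.card = r - i) := by
  unfold Lev
  rw [mem_product, mem_powersetCard, mem_powersetCard]

theorem nm (N P : Finset α) (v : α → ℚ) (hN : ∀ a ∈ N, v a < 0)
    (hP : ∀ a ∈ P, 0 < v a) (r i : ℕ) (hi : i < r) :
    ((Lev N P r i).filter (fun x => val v x ≤ 0)).card * ((r - i) * (N.card - i)) ≤
      ((Lev N P r (i + 1)).filter (fun x => val v x < 0)).card *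
        ((i + 1) * (P.card - (r - (i + 1)))) := by
  classical
  refine card_mul_le_card_mul (fun x y => x.1 ⊆ y.1 ∧ y.2 ⊆ x.2) ?_ ?_
  · intro x hx
    rw [mem_filter, mem_lev] at hx
    obtain ⟨⟨⟨hx1, hx2⟩, hx3, hx4⟩, hx5⟩ := hx
    have hc : (r - i) * (N.card - i) = (x.2 ×ˢ (N \ x.1)).card := by
      rw [card_product, card_sdiff_of_subset hx1, hx2, hx4]
    rw [hc]
    refine card_le_card_of_injOn (fun p => (insert p.2 x.1, x.2.erase p.1)) ?_ ?_
    · rintro ⟨y, z⟩ hyz
      rw [mem_coe, mem_product, mem_sdiff] at hyz
      obtain ⟨hy, hz, hz'⟩ := hyz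
      rw [mem_coe, mem_bipartiteAbove, mem_filter, mem_lev]
      simp only at hy hz hz'
      refine ⟨⟨⟨⟨?_, ?_⟩, ?_, ?_⟩, ?_⟩, ?_, ?_⟩
      · exact insert_subset hz hx1
      · rw [card_insert_of_notMem hz', hx2]
      · exact (erase_subset _ _).trans hx3
      · rw [card_erase_of_mem hy, hx4]
        omega
      · unfold val at hx5 ⊢
        simp only
        rw [sum_insert hz']
        have h1 := add_sum_erase x.2 v hy
        have h2 := hN z hz
        have h3 := hP y (hx3 hy)
        linarith
      · exact subset_insert _ _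
      · exact erase_subset _ _
    · rintro ⟨y, z⟩ hyz ⟨y', z'⟩ hyz' h
      rw [mem_coe, mem_product, mem_sdiff] at hyz hyz'
      simp only [Prod.mk.injEq] at h hyz hyz'
      obtain ⟨h1, h2⟩ := h
      have e1 : z = z' := by
        have : z ∈ insert z' x.1 := by rw [← h1]; exact mem_insert_self _ _
        rcases mem_insert.1 this with h | h
        · exact h
        · exact absurd h hyz.2.2
      have e2 : y = y' := by
        by_contra hne
        have : y ∈ x.2.erase y' := mem_erase.2 ⟨hne, hyz.1⟩
        rw [← h2] at this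
        exact (notMem_erase y x.2) this
      rw [e1, e2]
  · intro y hy
    rw [mem_filter, mem_lev] at hy
    obtain ⟨⟨⟨hy1, hy2⟩, hy3, hy4⟩, hy5⟩ := hy
    have hc : (i + 1) * (P.card - (r - (i + 1))) = (y.1 ×ˢ (P \ y.2)).card := by
      rw [card_product, card_sdiff_of_subset hy3, hy2, hy4]
    rw [hc]
    refine le_trans (card_le_card ?_) (card_image_le (f := fun p : α × α =>
      (y.1.erase p.1, insert p.2 y.2)) (s := y.1 ×ˢ (P \ y.2)))
    intro x hx
    rw [mem_bipartiteBelow, mem_filter, mem_lev] at hx
    obtain ⟨⟨⟨⟨hx1, hx2⟩, hx3, hx4⟩, _⟩, hs1, hs2⟩ := hx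
    obtain ⟨a, ha, ha'⟩ := exists_eq_insert_iff.2 ⟨hs1, by rw [hx2, hy2]⟩
    obtain ⟨b, hb, hb'⟩ := exists_eq_insert_iff.2 ⟨hs2, by rw [hx4, hy4]; omega⟩
    rw [mem_image]
    refine ⟨(a, b), ?_, ?_⟩
    · rw [mem_product, mem_sdiff]
      refine ⟨?_, ?_, hb⟩
      · rw [← ha']; exact mem_insert_self _ _
      · apply hx3
        rw [← hb']; exact mem_insert_self _ _
    · apply Prod.ext
      · simp only
        rw [← ha', erase_insert ha]
      · simp only
        rw [hb']

theorem lev_ratio (N P : Finset α) (r i : ℕ) (hi : i < r) :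
    (Lev N P r i).card * ((r - i) * (N.card - i)) =
      (Lev N P r (i + 1)).card * ((i + 1) * (P.card - (r - (i + 1)))) := by
  rw [lev_card, lev_card]
  have h1 := Nat.choose_succ_right_eq N.card i
  have h2 := Nat.choose_succ_right_eq P.card (r - (i + 1))
  have h3 : r - (i + 1) + 1 = r - i := by omega
  rw [h3] at h2
  calc N.card.choose i * P.card.choose (r - i) * ((r - i) * (N.card - i))
      = (N.card.choose i * (N.card - i)) * (P.card.choose (r - i) * (r - i)) := by ring
    _ = (N.card.choose (i + 1) * (i + 1)) *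
        (P.card.choose (r - (i + 1)) * (P.card - (r - (i + 1)))) := by rw [h1, h2]
    _ = _ := by ring

/-- Zero-sum pairs. -/
def Zer (N P : Finset α) (v : α → ℚ) (r i : ℕ) : Finset (Finset α × Finset α) :=
  (Lev N P r i).filter (fun x => val v x = 0)

theorem zer_split (N P : Finset α) (v : α → ℚ) (r i : ℕ) :
    ((Lev N P r i).filter (fun x => val v x ≤ 0)).card =
      ((Lev N P r i).filter (fun x => val v x < 0)).card + (Zer N P v r i).card := by
  unfold Zer
  rw [← card_union_of_disjoint]
  · congr 1
    ext x
    simp only [mem_filter, mem_union]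
    constructor
    · rintro ⟨h1, h2⟩
      rcases lt_or_eq_of_le h2 with h | h
      · exact Or.inl ⟨h1, h⟩
      · exact Or.inr ⟨h1, h⟩
    · rintro (⟨h1, h2⟩ | ⟨h1, h2⟩)
      · exact ⟨h1, h2.le⟩
      · exact ⟨h1, h2.le⟩
  · rw [disjoint_left]
    intro x h1 h2
    rw [mem_filter] at h1 h2
    exact absurd h2.2 h1.2.ne

theorem lym (N P : Finset α) (v : α → ℚ) (hN : ∀ a ∈ N, v a < 0)
    (hP : ∀ a ∈ P, 0 < v a) (r : ℕ) : ∀ k ≤ r,
    (∑ i ∈ range (k + 1), ((Zer N P v r i).card : ℚ) / ((Lev N P r i).card : ℚ) ≤ 1) ∧
    (0 < (Lev N P r k).card →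
      ∑ i ∈ range (k + 1), ((Zer N P v r i).card : ℚ) / ((Lev N P r i).card : ℚ) ≤
        (((Lev N P r k).filter (fun x => val v x ≤ 0)).card : ℚ) / ((Lev N P r k).card : ℚ)) := by
  intro k
  have hle1 : ∀ k, (((Lev N P r k).filter (fun x => val v x ≤ 0)).card : ℚ) /
      ((Lev N P r k).card : ℚ) ≤ 1 := by
    intro k
    rcases Nat.eq_zero_or_pos (Lev N P r k).card with h | h
    · rw [h]; simp
    · rw [div_le_one (by exact_mod_cast h)]
      exact_mod_cast card_filter_le _ _
  have hZ : ∀ k, (Lev N P r k).card = 0 → (Zer N P v r k).card = 0 := by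
    intro k h
    rw [card_eq_zero] at h ⊢
    unfold Zer
    rw [h, filter_empty]
  induction k with
  | zero =>
    intro _
    have key : 0 < (Lev N P r 0).card →
      ∑ i ∈ range (0 + 1), ((Zer N P v r i).card : ℚ) / ((Lev N P r i).card : ℚ) ≤
        (((Lev N P r 0).filter (fun x => val v x ≤ 0)).card : ℚ) / ((Lev N P r 0).card : ℚ) := by
      intro h
      rw [zero_add, sum_range_one]
      have h5 := zer_split N P v r 0
      have h6 : (Zer N P v r 0).card ≤
          ((Lev N P r 0).filter (fun x => val v x ≤ 0)).card := by omega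
      exact div_le_div_of_nonneg_right (by exact_mod_cast h6) (by positivity)
    refine ⟨?_, key⟩
    rcases Nat.eq_zero_or_pos (Lev N P r 0).card with h | h
    · rw [zero_add, sum_range_one, hZ 0 h]
      simp
    · exact (key h).trans (hle1 0)
  | succ k ih =>
    intro hk
    obtain ⟨ih1, ih2⟩ := ih (by omega)
    have key : 0 < (Lev N P r (k + 1)).card →
      ∑ i ∈ range (k + 1 + 1), ((Zer N P v r i).card : ℚ) / ((Lev N P r i).card : ℚ) ≤
        (((Lev N P r (k + 1)).filter (fun x => val v x ≤ 0)).card : ℚ) /
          ((Lev N P r (k + 1)).card : ℚ) := by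
      intro h
      rw [sum_range_succ, zer_split N P v r (k + 1)]
      push_cast
      rw [add_div]
      refine add_le_add_left ?_ _
      have hD0 : (0 : ℚ) ≤ (((Lev N P r (k + 1)).filter (fun x => val v x < 0)).card : ℚ) /
          ((Lev N P r (k + 1)).card : ℚ) := by positivity
      rcases Nat.eq_zero_or_pos (Lev N P r k).card with h0 | h0
      · -- all earlier levels are empty
        have hz : ∀ i ∈ range (k + 1),
            ((Zer N P v r i).card : ℚ) / ((Lev N P r i).card : ℚ) = 0 := by
          intro i hi
          rw [mem_range] at hi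
          rw [lev_card] at h h0
          have hq : k + 1 ≤ N.card := by
            by_contra hc
            push Not at hc
            rw [Nat.choose_eq_zero_of_lt hc] at h
            simp at h
          have hc0 : N.card.choose k ≠ 0 := (Nat.choose_pos (by omega)).ne'
          have hp : P.card.choose (r - k) = 0 := by
            rcases Nat.mul_eq_zero.1 h0 with h1 | h1
            · exact absurd h1 hc0
            · exact h1
          rw [Nat.choose_eq_zero_iff] at hp
          have hp' : P.card.choose (r - i) = 0 := Nat.choose_eq_zero_of_lt (by omega)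
          have : (Lev N P r i).card = 0 := by rw [lev_card, hp', mul_zero]
          rw [hZ i this]
          simp
        rw [sum_eq_zero hz]
        exact hD0
      · refine (ih2 h0).trans ?_
        have h1 := nm N P v hN hP r k (by omega)
        have h2 := lev_ratio N P r k (by omega)
        rw [div_le_div_iff₀ (by exact_mod_cast h0) (by exact_mod_cast h)]
        have hpos : 0 < (k + 1) * (P.card - (r - (k + 1))) := by
          have hr : 0 < (r - k) * (N.card - k) := by
            rw [lev_card] at h
            have hq : k + 1 ≤ N.card := by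
              by_contra hc
              push Not at hc
              rw [Nat.choose_eq_zero_of_lt hc] at h
              simp at h
            exact Nat.mul_pos (by omega) (by omega)
          by_contra hc
          have : (k + 1) * (P.card - (r - (k + 1))) = 0 := by omega
          rw [this, mul_zero] at h2
          have := Nat.mul_pos h0 hr
          omega
        -- multiply out
        have h3 : ((Lev N P r k).filter (fun x => val v x ≤ 0)).card * (Lev N P r (k + 1)).card *
            ((k + 1) * (P.card - (r - (k + 1)))) ≤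
            ((Lev N P r (k + 1)).filter (fun x => val v x < 0)).card * (Lev N P r k).card *
            ((k + 1) * (P.card - (r - (k + 1)))) := by
          calc ((Lev N P r k).filter (fun x => val v x ≤ 0)).card * (Lev N P r (k + 1)).card *
              ((k + 1) * (P.card - (r - (k + 1))))
              = ((Lev N P r k).filter (fun x => val v x ≤ 0)).card *
                ((Lev N P r (k + 1)).card * ((k + 1) * (P.card - (r - (k + 1))))) := by ring
            _ = ((Lev N P r k).filter (fun x => val v x ≤ 0)).card *
                ((Lev N P r k).card * ((r - k) * (N.card - k))) := by rw [h2]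
            _ = (((Lev N P r k).filter (fun x => val v x ≤ 0)).card *
                ((r - k) * (N.card - k))) * (Lev N P r k).card := by ring
            _ ≤ (((Lev N P r (k + 1)).filter (fun x => val v x < 0)).card *
                ((k + 1) * (P.card - (r - (k + 1))))) * (Lev N P r k).card :=
                Nat.mul_le_mul_right _ h1
            _ = _ := by ring
        have h4 := Nat.le_of_mul_le_mul_right h3 hpos
        exact_mod_cast h4
    refine ⟨?_, key⟩
    rcases Nat.eq_zero_or_pos (Lev N P r (k + 1)).card with h | h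
    · rw [sum_range_succ, hZ (k + 1) h]
      simpa using ih1
    · exact (key h).trans (hle1 (k + 1))

/-- The number of zero-sum pairs is at most any common bound of the middle level sizes. -/
theorem zer_bound (N P : Finset α) (v : α → ℚ) (hN : ∀ a ∈ N, v a < 0)
    (hP : ∀ a ∈ P, 0 < v a) (r : ℕ) (hr : 1 ≤ r) (M : ℕ)
    (hM : ∀ i, 1 ≤ i → i < r → N.card.choose i * P.card.choose (r - i) ≤ M) :
    ∑ i ∈ range (r + 1), (Zer N P v r i).card ≤ M := by
  have h1 := (lym N P v hN hP r r le_rfl).1
  have h0 : (Zer N P v r 0).card = 0 := by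
    rw [card_eq_zero]
    unfold Zer
    rw [filter_eq_empty_iff]
    intro x hx h
    rw [mem_lev] at hx
    obtain ⟨⟨_, hx2⟩, hx3, hx4⟩ := hx
    unfold val at h
    rw [card_eq_zero.1 hx2, sum_empty, zero_add] at h
    have hne : x.2.Nonempty := by
      rw [← card_pos, hx4]; omega
    have := sum_pos (fun a ha => hP a (hx3 ha)) hne
    linarith
  have hrr : (Zer N P v r r).card = 0 := by
    rw [card_eq_zero]
    unfold Zer
    rw [filter_eq_empty_iff]
    intro x hx h
    rw [mem_lev] at hx
    obtain ⟨⟨hx1, hx2⟩, hx3, hx4⟩ := hx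
    unfold val at h
    rw [Nat.sub_self] at hx4
    rw [card_eq_zero.1 hx4, sum_empty, add_zero] at h
    have hne : x.1.Nonempty := by
      rw [← card_pos, hx2]; omega
    have := sum_neg (fun a ha => hN a (hx1 ha)) hne
    linarith
  have h2 : (∑ i ∈ range (r + 1), ((Zer N P v r i).card : ℚ)) ≤
      (M : ℚ) * ∑ i ∈ range (r + 1), ((Zer N P v r i).card : ℚ) / ((Lev N P r i).card : ℚ) := by
    rw [mul_sum]
    refine sum_le_sum fun i hi => ?_
    rw [mem_range] at hi
    rcases Nat.eq_zero_or_pos (Zer N P v r i).card with h | h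
    · rw [h]; simp
    · have hL : 0 < (Lev N P r i).card := lt_of_lt_of_le h (card_filter_le _ _)
      have hi0 : i ≠ 0 := by rintro rfl; omega
      have hir : i ≠ r := by rintro rfl; omega
      have hb := hM i (by omega) (by omega)
      rw [← lev_card] at hb
      rw [mul_div_assoc', le_div_iff₀ (by exact_mod_cast hL), mul_comm]
      gcongr
  have h3 : (M : ℚ) * ∑ i ∈ range (r + 1), ((Zer N P v r i).card : ℚ) /
      ((Lev N P r i).card : ℚ) ≤ M * 1 := by gcongr
  rw [mul_one] at h3
  exact_mod_cast h2.trans h3

end V11121.Rat
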