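import Mathlib

/-! The binomial inequality `C(q,i) C(n-q,r-i) ≤ ⌊n/r⌋ C(n-⌊n/r⌋, r-1)`. -/

namespace V11121.Rat

open Finset

theorem T_small (r i g k : ℤ) (hi : 0 ≤ i) (hir : 2 * i ≤ r) (hg : 0 ≤ g) (hgr : 2 * g ≤ r) :
    0 ≤ i * (i - 1) * (g * (g - 1)) + (r - 1) * k * (r * (k + 1) - 2 * (i * g)) := by
  have hii : 0 ≤ i * (i - 1) := by
    rcases eq_or_lt_of_le hi with h | h
    · rw [← h]; simp
    · exact mul_nonneg hi (by omega)
  have hgg : 0 ≤ g * (g - 1) := by
    rcases eq_or_lt_of_le hg with h | h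
    · rw [← h]; simp
    · exact mul_nonneg hg (by omega)
  have hX : 0 ≤ i * g := mul_nonneg hi hg
  have hr : 0 ≤ r := by linarith
  rcases eq_or_lt_of_le hr with h0 | h0
  · have hi0 : i = 0 := by omega
    have hg0 : g = 0 := by omega
    subst hi0 hg0
    rw [← h0]
    simp
  have h1 := mul_nonneg hii hgg
  by_cases hk : k ≤ 0
  · rcases eq_or_lt_of_le hk with h | h
    · rw [h]; simpa using h1
    · have h2 : r * (k + 1) - 2 * (i * g) ≤ 0 := by
        have : r * (k + 1) ≤ 0 := mul_nonpos_of_nonneg_of_nonpos hr (by omega)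
        linarith
      have h3 : 0 ≤ k * (r * (k + 1) - 2 * (i * g)) := mul_nonneg_of_nonpos_of_nonpos hk h2
      have h4 : 0 ≤ (r - 1) * (k * (r * (k + 1) - 2 * (i * g))) := mul_nonneg (by omega) h3
      have : (r - 1) * k * (r * (k + 1) - 2 * (i * g)) =
          (r - 1) * (k * (r * (k + 1) - 2 * (i * g))) := by ring
      rw [this]
      linarith
  · push Not at hk
    by_cases hXr : i * g ≤ r
    · have h2 : 0 ≤ r * (k + 1) - 2 * (i * g) := by
        have : r * 2 ≤ r * (k + 1) := mul_le_mul_of_nonneg_left (by omega) hr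
        linarith
      have h4 : 0 ≤ (r - 1) * k * (r * (k + 1) - 2 * (i * g)) :=
        mul_nonneg (mul_nonneg (by omega) hk.le) h2
      linarith
    · push Not at hXr
      -- complete the square
      have id : 4 * r * (i * (i - 1) * (g * (g - 1)) + (r - 1) * k * (r * (k + 1) - 2 * (i * g))) =
          4 * (i * g) * ((r - i) * (r - g)) - (r - 1) * r ^ 2 +
            (r - 1) * (2 * r * k + r - 2 * (i * g)) ^ 2 := by ring
      have h5 : 0 ≤ (r - 1) * (2 * r * k + r - 2 * (i * g)) ^ 2 :=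
        mul_nonneg (by omega) (sq_nonneg _)
      have h6 : r ^ 2 ≤ 4 * ((r - i) * (r - g)) := by
        nlinarith
      have h7 : (r - 1) * r ^ 2 ≤ 4 * (i * g) * ((r - i) * (r - g)) := by
        calc (r - 1) * r ^ 2 ≤ (i * g) * r ^ 2 :=
              mul_le_mul_of_nonneg_right (by linarith) (sq_nonneg r)
          _ ≤ (i * g) * (4 * ((r - i) * (r - g))) := mul_le_mul_of_nonneg_left h6 hX
          _ = _ := by ring
      have h8 : 0 ≤ 4 * r * (i * (i - 1) * (g * (g - 1)) +
          (r - 1) * k * (r * (k + 1) - 2 * (i * g))) := by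
        rw [id]; linarith
      exact nonneg_of_mul_nonneg_right h8 (by linarith)

theorem T_half (r i g k : ℤ) (hi : 0 ≤ i) (hir : 2 * i ≤ r) (hg : 0 ≤ g) (hgr : g ≤ r) :
    0 ≤ i * (i - 1) * (g * (g - 1)) + (r - 1) * k * (r * (k + 1) - 2 * (i * g)) := by
  by_cases h : 2 * g ≤ r
  · exact T_small r i g k hi hir hg h
  · push Not at h
    have := T_small r i (r - g) (i - 1 - k) hi hir (by omega) (by omega)
    refine this.trans (le_of_eq ?_)
    ring

theorem T_nonneg (r i g k : ℤ) (hi : 0 ≤ i) (hir : i ≤ r) (hg : 0 ≤ g) (hgr : g ≤ r) :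
    0 ≤ i * (i - 1) * (g * (g - 1)) + (r - 1) * k * (r * (k + 1) - 2 * (i * g)) := by
  by_cases h : 2 * i ≤ r
  · exact T_half r i g k hi h hg hgr
  · push Not at h
    have := T_half r (r - i) g (g - 1 - k) (by omega) (by omega) hg hgr
    refine this.trans (le_of_eq ?_)
    ring

/-- The inequality between partial sums. -/
theorem partial_ineq (i j a b : ℕ) (hi : 1 ≤ i) (hj : 1 ≤ j) :
    (i * j * (i + j - 1) : ℤ) * (((a + b) / (i + j) : ℕ) * (((a + b) / (i + j) : ℕ) + 1)) +
      (i * j : ℤ) * ((a + b - ((a + b) / (i + j) : ℕ)) * (a + b - ((a + b) / (i + j) : ℕ) + 1)) ≤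
    (j * (i + j - 1) : ℤ) * (a * (a + 1)) + (i * (i + j - 1) : ℤ) * (b * (b + 1)) := by
  set m := (a + b) / (i + j) with hm
  have h1 : m * (i + j) ≤ a + b := Nat.div_mul_le_self _ _
  have h2 : a + b < (m + 1) * (i + j) := by
    rw [hm]
    have := Nat.lt_div_mul_add (a := a + b) (b := i + j) (by omega)
    rw [add_mul, one_mul]
    exact this
  have h1' : (m : ℤ) * (i + j) ≤ a + b := by exact_mod_cast h1
  have h2' : (a : ℤ) + b < (m + 1) * (i + j) := by exact_mod_cast h2
  have hi' : (1 : ℤ) ≤ i := by exact_mod_cast hi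
  have hj' : (1 : ℤ) ≤ j := by exact_mod_cast hj
  have key := T_nonneg (i + j) i (a + b + 1 - (i + j) * m) (a - i * m) (by linarith) (by linarith)
    (by linarith) (by nlinarith)
  linarith [key]

end V11121.Rat
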